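import Pool.Agent.Helper14.CV.StD

/-!
# Project CV, module Ld3: leading form of `T_3`
-/

set_option autoImplicit false

namespace Pool.Agent.Helper57.CV

open Pool.Agent.Helper14.CV

private abbrev EE (r s : ℕ) : Type := Module.End (ZMod 2) (Fn (2 ^ r) (2 ^ s))

private theorem two {r s : ℕ} (O : EE r s) : O + O = 0 := by
  ext F x y
  exact CharTwo.add_self_eq_zero _

private theorem twoF {r s : ℕ} (F : Fn (2 ^ r) (2 ^ s)) : F + F = 0 := by
  funext x y
  exact CharTwo.add_self_eq_zero _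

/-- `O` has leading form `P` of order `k`. -/
private def Ap {r s : ℕ} (O P : EE r s) (k : ℤ) : Prop := Low (O + P) (k + 1) ∧ Low P k

private theorem ap_low {r s : ℕ} (h0 : StLow0) {O P : EE r s} {k : ℤ} (h : Ap O P k) :
    Low O k := by
  obtain ⟨-, hadd, hmono, -⟩ := h0 r s
  have e : O = (O + P) + P := by rw [add_assoc, two, add_zero]
  rw [e]
  exact hadd _ _ _ (hmono _ _ _ (by linarith) h.1) h.2

private theorem ap_mul {r s : ℕ} (h0 : StLow0) {O P O' P' : EE r s} {k k' : ℤ} (h : Ap O P k)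
    (h' : Ap O' P' k') : Ap (O * O') (P * P') (k + k') := by
  have hl := ap_low h0 h'
  obtain ⟨hmul, hadd, hmono, -⟩ := h0 r s
  refine ⟨?_, hmul _ _ _ _ h.2 h'.2⟩
  have e : O * O' + P * P' = (O + P) * O' + P * (O' + P') := by
    rw [add_mul, mul_add, add_assoc, ← add_assoc (P * O'), two, zero_add]
  rw [e]
  refine hadd _ _ _ ?_ ?_
  · have := hmul _ _ _ _ h.1 hl
    exact hmono _ _ _ (by linarith) this
  · have := hmul _ _ _ _ h.2 h'.1
    exact hmono _ _ _ (by linarith) this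

private theorem ap_add {r s : ℕ} (h0 : StLow0) {O P O' P' : EE r s} {k : ℤ} (h : Ap O P k)
    (h' : Ap O' P' k) : Ap (O + O') (P + P') k := by
  obtain ⟨-, hadd, -⟩ := h0 r s
  refine ⟨?_, hadd _ _ _ h.2 h'.2⟩
  have e : O + O' + (P + P') = (O + P) + (O' + P') := by abel
  rw [e]
  exact hadd _ _ _ h.1 h'.1

private theorem id1 {A : Type} [Ring A] (a p q c c' : A) :
    (p * a + q * (a * a) + p * a * c * (1 + a) + q * (a * a) * c' * (1 + c) * (1 + a)) +
      a * (1 + a * c') * (1 + c) * (1 + a) =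
    (p + 1) * a + (q + 1) * (a * a) + (p + 1) * (a * (c * (1 + a))) +
      (q + 1) * ((a * a) * (c' * ((1 + c) * (1 + a)))) := by
  noncomm_ring

private theorem id2 {A : Type} [Ring A] (two : ∀ O : A, O + O = 0) (E D X Y L : A) :
    (E + D) + D * X + L = (E + D) + D * (X + Y) + (D * Y + L) := by
  have e1 : (E + D) + D * (X + Y) + (D * Y + L) = (E + D) + D * X + L + (D * Y + D * Y) := by
    rw [mul_add]; abel
  rw [e1, two, add_zero]

private theorem id3 {A : Type} [Ring A] (two : ∀ O : A, O + O = 0) (c c' : A) (h : c * c' = 1)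
    (h' : c' * c = 1) : c' * (1 + c) * (1 + c') = 1 + c' * c' := by
  have e1 : c' * (1 + c) * (1 + c') = c' + c' * c' + c' * c + c' * (c * c') := by noncomm_ring
  rw [e1, h, h', mul_one]
  have e2 : c' + c' * c' + 1 + c' = (c' + c') + (1 + c' * c') := by abel
  rw [e2, two, zero_add]

/-- The operator whose value at `F1` is `T3f n1 n2 F1 F3` if `Rel F1 F3`. -/
private theorem op_eq {r s : ℕ} (hG : StGrp) (n1 n2 : ℤ) (F1 F3 : Fn (2 ^ r) (2 ^ s))
    (h : Rel F1 F3) : T3f n1 n2 F1 F3 =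
      ((opE 3 + opD 3) + opD 3 * (opA n1 + opA n2 + opA n1 * opC * (1 + opA 1) +
        opA n2 * opC' * (1 + opC) * (1 + opA 1)) : EE r s) F1 := by
  obtain ⟨-, -, -, -, hCC, hCC'⟩ := hG r s
  have hV : (1 + opA 1 : EE r s) F1 = (1 + opC' : EE r s) F3 := by
    funext x y
    have := h x y
    have e1 : ((1 + opA 1 : EE r s) F1) x y = tA 1 F1 x y - F1 x y := by
      rw [CharTwo.sub_eq_add, add_comm]; rfl
    have e2 : ((1 + opC' : EE r s) F3) x y = tA 1 (tB (-1) F3) x y - F3 x y := by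
      rw [CharTwo.sub_eq_add, add_comm]; rfl
    rw [e1, e2, this]
  have hU : (opC * (1 + opA 1) : EE r s) F1 = (1 + opC : EE r s) F3 := by
    rw [Module.End.mul_apply, hV, ← Module.End.mul_apply, mul_add, mul_one, hCC, add_comm]
  have hC1 : (opC' * (1 + opC) * (1 + opA 1) : EE r s) F1 = (1 + opC' * opC' : EE r s) F3 := by
    have e : (opC' * (1 + opC) * (1 + opC') : EE r s) = 1 + opC' * opC' :=
      id3 two _ _ hCC hCC'
    rw [Module.End.mul_apply, hV, ← Module.End.mul_apply, e]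
  have lhs : T3f n1 n2 F1 F3 = ((opE 3 + opD 3 : EE r s) F1) + (opD 3 : EE r s) (
      (opA n1 : EE r s) F1 + (opA n2 : EE r s) F1 + (opA n1 : EE r s) ((1 + opC : EE r s) F3) +
      (opA n2 : EE r s) ((1 + opC' * opC' : EE r s) F3)) := by
    unfold T3f
    simp only [map_add, LinearMap.add_apply, Module.End.one_apply, Module.End.mul_apply]
    abel
  rw [lhs, ← hU, ← hC1]
  simp only [LinearMap.add_apply, Module.End.mul_apply, map_add, Module.End.one_apply]

theorem hLd3 (hLow0 : StLow0) (hGrp : StGrp) (hLowA : StLowA) : StLd3 := by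
  intro r s n1 n2 d F1 F3 hR hn1 hn2 hF
  rw [op_eq hGrp n1 n2 F1 F3 hR]
  obtain ⟨hmul, hadd, hmono, hWd, hone, hdx, hdy, hcomm, -⟩ := hLow0 r s
  obtain ⟨gA, gB, gA0, gB0, hCC, hCC'⟩ := hGrp r s
  obtain ⟨lz, lA, lB, -, lD⟩ := hLowA r s
  have hmul' : ∀ (O O' : EE r s) (k k' m : ℤ), m ≤ k + k' → Low O k → Low O' k' →
      Low (O * O') m := fun O O' k k' m hm h h' => hmono _ _ _ hm (hmul _ _ _ _ h h')
  -- the basic leading forms
  have aA : ∀ z : ℤ, Ap (opA z : EE r s) 1 0 := fun z => ⟨hmono _ 1 _ (by norm_num) (lz z).1, hone⟩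
  have aB : ∀ z : ℤ, Ap (opB z : EE r s) 1 0 :=
    fun z => ⟨hmono _ 1 _ (by norm_num) (lz z).2.1, hone⟩
  have aD : Ap (opD 3 : EE r s) 1 0 := ⟨hmono _ 1 _ (by norm_num) (lD 3 (by decide)).1, hone⟩
  have aV : Ap (1 + opA 1 : EE r s) dx 1 :=
    ⟨hmono _ 3 _ (by norm_num) (by rw [add_comm (1 : EE r s)]; exact lA), hdx⟩
  have aVB : Ap (1 + opB 1 : EE r s) dy 1 :=
    ⟨hmono _ 3 _ (by norm_num) (by rw [add_comm (1 : EE r s)]; exact lB), hdy⟩
  have aA' : Ap (1 + opA (-1) : EE r s) dx 1 := by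
    have h := ap_mul hLow0 (aA (-1)) aV
    have e : (opA (-1) * (1 + opA 1) : EE r s) = 1 + opA (-1) := by
      rw [mul_add, mul_one, gA]
      norm_num [gA0, add_comm]
    rw [e, one_mul, zero_add] at h
    exact h
  have aB' : Ap (1 + opB (-1) : EE r s) dy 1 := by
    have h := ap_mul hLow0 (aB (-1)) aVB
    have e : (opB (-1) * (1 + opB 1) : EE r s) = 1 + opB (-1) := by
      rw [mul_add, mul_one, gB]
      norm_num [gB0, add_comm]
    rw [e, one_mul, zero_add] at h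
    exact h
  have aC : Ap (1 + opC : EE r s) (dx + dy) 1 := by
    -- `1 + B A' = (1 + B) A' + (1 + A')`
    have h := ap_add hLow0 (ap_mul hLow0 aVB (aA (-1))) (by simpa using aA')
    have e : ((1 + opB 1) * opA (-1) + (1 + opA (-1)) : EE r s) = 1 + opC := by
      have e1 : ((1 + opB 1) * opA (-1) + (1 + opA (-1)) : EE r s) =
          (opA (-1) + opA (-1)) + (1 + opB 1 * opA (-1)) := by noncomm_ring
      rw [e1, two, zero_add]; rfl
    rw [e, mul_one, add_comm dy] at h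
    exact h
  have aAC : Ap (1 + opA 1 * opC' : EE r s) dy 1 := by
    -- `1 + A A B' = (1 + A) (1 + A) B' + (1 + B')`
    have h1 : Low ((1 + opA 1) * (1 + opA 1) * opB (-1) : EE r s) 2 :=
      hmul' _ _ 2 0 2 (by norm_num)
        (hmul' _ _ 1 1 2 (by norm_num) (ap_low hLow0 aV) (ap_low hLow0 aV)) (lz (-1)).2.2.2.1
    have e : (1 + opA 1 * opC' : EE r s) =
        (1 + opA 1) * (1 + opA 1) * opB (-1) + (1 + opB (-1)) := by
      have e1 : ((1 + opA 1) * (1 + opA 1) * opB (-1) + (1 + opB (-1)) : EE r s) =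
          (opB (-1) + opB (-1)) + (opA 1 * opB (-1) + opA 1 * opB (-1)) +
            (1 + opA 1 * (opA 1 * opB (-1))) := by noncomm_ring
      rw [e1, two, two, zero_add, zero_add]; rfl
    refine ⟨?_, hdy⟩
    rw [e, add_assoc]
    exact hadd _ _ _ (hmono _ 2 _ (by norm_num) h1) aB'.1
  -- the main product
  have aM := ap_mul hLow0 aD (ap_mul hLow0 (ap_mul hLow0 (ap_mul hLow0 (aA 1) aAC) aC) aV)
  have eL : ((1 : EE r s) * (1 * dy * (dx + dy) * dx)) = L3 := by
    have c1 : ((dx + dy) * dx : EE r s) = dx * (dx + dy) := by rw [add_mul, mul_add, hcomm]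
    unfold L3
    rw [one_mul, one_mul, mul_assoc, c1, ← mul_assoc, ← hcomm]
  rw [eL] at aM
  have l1 : Low (opA (n1 - 1) + 1 : EE r s) 4 := (lz (n1 - 1)).2.2.2.2.1 hn1
  have l2 : Low (opA (n2 - 2) + 1 : EE r s) 4 := (lz (n2 - 2)).2.2.2.2.1 hn2
  have g1 : (opA n1 : EE r s) = opA (n1 - 1) * opA 1 := by rw [gA]; congr 1; ring
  have g2 : (opA n2 : EE r s) = opA (n2 - 2) * (opA 1 * opA 1) := by
    rw [gA, gA]; congr 1; ring
  have lA1 : Low (opA 1 : EE r s) 0 := (lz 1).2.2.1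
  have lC : Low (opC : EE r s) 0 := hmul' _ _ 0 0 0 (by norm_num) (lz 1).2.2.2.1 (lz (-1)).2.2.1
  have lC' : Low (opC' : EE r s) 0 := hmul' _ _ 0 0 0 (by norm_num) (lz 1).2.2.1 (lz (-1)).2.2.2.1
  have lV : Low (1 + opA 1 : EE r s) 0 := hadd _ _ _ hone lA1
  have lU : Low (1 + opC : EE r s) 0 := hadd _ _ _ hone lC
  have lAA : Low (opA 1 * opA 1 : EE r s) 0 := hmul' _ _ 0 0 0 (by norm_num) lA1 lA1
  have hX : Low ((opA n1 + opA n2 + opA n1 * opC * (1 + opA 1) +
        opA n2 * opC' * (1 + opC) * (1 + opA 1)) +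
      opA 1 * (1 + opA 1 * opC') * (1 + opC) * (1 + opA 1) : EE r s) 4 := by
    have e : ((opA n1 + opA n2 + opA n1 * opC * (1 + opA 1) +
        opA n2 * opC' * (1 + opC) * (1 + opA 1)) +
      opA 1 * (1 + opA 1 * opC') * (1 + opC) * (1 + opA 1) : EE r s) =
      (opA (n1 - 1) + 1) * opA 1 + (opA (n2 - 2) + 1) * (opA 1 * opA 1) +
      (opA (n1 - 1) + 1) * (opA 1 * (opC * (1 + opA 1))) +
      (opA (n2 - 2) + 1) * ((opA 1 * opA 1) * (opC' * ((1 + opC) * (1 + opA 1)))) := by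
      rw [g1, g2]
      exact id1 _ _ _ _ _
    rw [e]
    refine hadd _ _ _ (hadd _ _ _ (hadd _ _ _ ?_ ?_) ?_) ?_
    · exact hmul' _ _ 4 0 4 (by norm_num) l1 lA1
    · exact hmul' _ _ 4 0 4 (by norm_num) l2 lAA
    · exact hmul' _ _ 4 0 4 (by norm_num) l1
        (hmul' _ _ 0 0 0 (by norm_num) lA1 (hmul' _ _ 0 0 0 (by norm_num) lC lV))
    · exact hmul' _ _ 4 0 4 (by norm_num) l2 (hmul' _ _ 0 0 0 (by norm_num) lAA
        (hmul' _ _ 0 0 0 (by norm_num) lC' (hmul' _ _ 0 0 0 (by norm_num) lU lV)))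
  have lDD : Low (opD 3 : EE r s) 0 := ap_low hLow0 aD
  have lED : Low (opE 3 + opD 3 : EE r s) 4 := by
    rw [add_comm]
    exact hmono _ 7 _ (by norm_num) (lD 3 (by decide)).2.2
  have key : Low (((opE 3 + opD 3) + opD 3 * (opA n1 + opA n2 + opA n1 * opC * (1 + opA 1) +
        opA n2 * opC' * (1 + opC) * (1 + opA 1)) : EE r s) + L3) 4 := by
    generalize hXd : (opA n1 + opA n2 + opA n1 * opC * (1 + opA 1) +
        opA n2 * opC' * (1 + opC) * (1 + opA 1) : EE r s) = X at hX ⊢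
    generalize hYd : (opA 1 * (1 + opA 1 * opC') * (1 + opC) * (1 + opA 1) : EE r s) = Y
      at hX aM
    have e : ((opE 3 + opD 3) + opD 3 * X + L3 : EE r s) =
        (opE 3 + opD 3) + opD 3 * (X + Y) + (opD 3 * Y + L3) := id2 two _ _ _ _ _
    rw [e]
    refine hadd _ _ _ (hadd _ _ _ lED ?_) ?_
    · exact hmul' _ _ 0 4 4 (by norm_num) lDD hX
    · exact hmono _ _ _ (by norm_num) aM.1
  have := key d F1 hF
  rwa [LinearMap.add_apply] at this

end Pool.Agent.Helper57.CV
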